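import Pool.Agent.N321.KT.Defs

set_option autoImplicit false

/-! The generic operator field (helper97, for project KT of helper321). -/

namespace Pool.Agent.N97.KT.GEN

open Pool.Agent.N321.KT

variable {ι : Type}

theorem mul_low (w : List ι) : ∀ (u v : Jet ι ℝ) (k : ℕ), (∀ w, v w ≠ 0 → k ≤ w.length) →
    (w.length < k → mul u v w = 0) ∧ (w.length = k → mul u v w = u [] * v w) := by
  induction w with
  | nil =>
    intro u v k h
    refine ⟨fun h1 => ?_, fun _ => rfl⟩
    have h2 : v [] = 0 := by
      by_contra hv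
      have := h [] hv
      omega
    show u [] * v [] = 0
    rw [h2, mul_zero]
  | cons i w ih =>
    intro u v k h
    have h1 : mul u v (i :: w) = mul (D i u) v w + mul u (D i v) w := rfl
    have h2 : ∀ w', D i v w' ≠ 0 → k - 1 ≤ w'.length := by
      intro w' hw'
      have := h (i :: w') hw'
      rw [List.length_cons] at this
      omega
    rw [h1, List.length_cons]
    constructor
    · intro h3
      rw [(ih (D i u) v k h).1 (by omega), (ih u (D i v) (k - 1) h2).1 (by omega), add_zero]
    · intro h3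
      rw [(ih (D i u) v k h).1 (by omega), (ih u (D i v) (k - 1) h2).2 (by omega), zero_add]
      rfl

theorem rows [Fintype ι] [DecidableEq ι] {m : ℕ} (K : ι → ι → Jet ι ℝ) (v : Jet ι ℝ)
    (h1 : ∀ w, v w ≠ 0 → w.length = m)
    (h2 : ∀ (w : List ι) (i j : ι), w.length + 2 = m →
      ∑ s, K s j [] * v (s :: i :: w) = ∑ s, K s i [] * v (s :: j :: w)) : Rows m K v := by
  have h3 : ∀ s w, D s v w ≠ 0 → m - 1 ≤ w.length := by
    intro s w hw
    have := h1 (s :: w) hw
    rw [List.length_cons] at this
    omega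
  intro w hw i j
  unfold om th
  rcases Nat.lt_or_ge (w.length + 2) m with h | h
  · have e1 : ∀ s i j, mul (K s j) (D s v) (i :: w) = 0 := fun s i j =>
      (mul_low (i :: w) (K s j) (D s v) (m - 1) (h3 s)).1 (by rw [List.length_cons]; omega)
    simp only [e1, Finset.sum_const_zero, sub_zero]
  · have h4 : w.length + 2 = m := by omega
    have e1 : ∀ s i j, mul (K s j) (D s v) (i :: w) = K s j [] * v (s :: i :: w) := fun s i j =>
      (mul_low (i :: w) (K s j) (D s v) (m - 1) (h3 s)).2 (by rw [List.length_cons]; omega)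
    simp only [e1]
    rw [h2 w i j h4, sub_self]

theorem t (h1 : S_MIN) (h2 : S_CYC) : S_GEN := by
  intro ι _ _ m K0 d hm hd hK0 hP0
  obtain ⟨P1, hP1, hmin⟩ := h1 ι m K0 hP0
  set e : ι ≃ Fin (Fintype.card ι) := Fintype.equivFin ι with he
  set Am : Matrix ι ι (MvPolynomial (ι × ι × List ι) ℝ) := fun s j => MvPolynomial.X (s, j, []) with hAm
  set MM : Matrix ι ι (MvPolynomial (ι × ι × List ι) ℝ) :=
    fun j i => ((Am ^ (e j : ℕ)).mulVec (fun _ => 1)) i with hMM
  have hev : ∀ K : ι → ι → Jet ι ℝ, MvPolynomial.eval (fun q : ι × ι × List ι => K q.1 q.2.1 q.2.2) MM.det =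
      (Matrix.of fun j i => (((Matrix.of fun s j => K s j []) ^ (e j : ℕ)).mulVec (fun _ => (1:ℝ))) i).det := by
    intro K
    rw [RingHom.map_det]
    congr 1
    ext j i
    rw [RingHom.mapMatrix_apply, Matrix.map_apply, Matrix.of_apply, hMM]
    simp only
    rw [RingHom.map_mulVec]
    have e1 : (Am ^ (e j : ℕ)).map (MvPolynomial.eval (fun q : ι × ι × List ι => K q.1 q.2.1 q.2.2)) =
        (Matrix.of fun s j => K s j []) ^ (e j : ℕ) := by
      rw [← RingHom.mapMatrix_apply, map_pow]
      congr 1
      ext s j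
      rw [RingHom.mapMatrix_apply, Matrix.map_apply, hAm, Matrix.of_apply, MvPolynomial.eval_X]
    have e2 : (⇑(MvPolynomial.eval (fun q : ι × ι × List ι => K q.1 q.2.1 q.2.2)) ∘
        fun _ : ι => (1 : MvPolynomial (ι × ι × List ι) ℝ)) = fun _ => (1 : ℝ) := funext fun _ => map_one _
    rw [e1, e2]
  refine ⟨P1 * MM.det, ?_, fun K hK => ?_⟩
  · rw [map_mul]
    refine mul_ne_zero hP1 ?_
    rw [hev]
    have e1 : (Matrix.of fun s j => K0 s j []) = Matrix.diagonal d := by
      ext s j
      rw [Matrix.of_apply, hK0, Matrix.diagonal_apply]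
    have e2 : (Matrix.of fun j i => (((Matrix.of fun s j => K0 s j []) ^ (e j : ℕ)).mulVec
        (fun _ => (1:ℝ))) i) =
        ((Matrix.vandermonde (d ∘ e.symm)).submatrix e e).transpose := by
      ext j i
      rw [Matrix.of_apply, e1, Matrix.diagonal_pow, Matrix.mulVec_diagonal, Matrix.transpose_apply,
        Matrix.submatrix_apply, Matrix.vandermonde_apply]
      simp
    rw [e2, Matrix.det_transpose, Matrix.det_submatrix_equiv_self, Matrix.det_vandermonde_ne_zero_iff]
    exact hd.comp e.symm.injective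
  · rw [map_mul] at hK
    obtain ⟨hf, hr⟩ := hmin K (left_ne_zero_of_mul hK)
    have h3 := right_ne_zero_of_mul hK
    rw [hev] at h3
    have hli : LinearIndependent ℝ (fun k : Fin (Fintype.card ι) =>
        ((Matrix.of fun s j => K s j []) ^ (k : ℕ)).mulVec (fun _ => (1:ℝ))) := by
      have h4 := Matrix.linearIndependent_rows_iff_isUnit.2
        ((Matrix.isUnit_iff_isUnit_det _).2 (isUnit_iff_ne_zero.2 h3))
      have h5 := h4.comp e.symm e.symm.injective
      have h6 : (fun k : Fin (Fintype.card ι) =>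
          ((Matrix.of fun s j => K s j []) ^ (k : ℕ)).mulVec (fun _ => (1:ℝ))) =
          (Matrix.of fun j i => (((Matrix.of fun s j => K s j []) ^ (e j : ℕ)).mulVec
            (fun _ => (1:ℝ))) i).row ∘ e.symm := by
        funext k
        show _ = ((Matrix.of fun s j => K s j []) ^ (e (e.symm k) : ℕ)).mulVec (fun _ => (1:ℝ))
        rw [Equiv.apply_symm_apply]
      rw [h6]
      exact h5
    obtain ⟨L, hL, hL2⟩ := h2 ι m (Matrix.of fun s j => K s j []) (fun _ => 1) hm hli
    have hle : LinearMap.range L ≤ Ker m K := by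
      rintro _ ⟨a, rfl⟩
      obtain ⟨k1, k2, k3⟩ := hL2 a
      refine ⟨k1, fun w hw => ?_, rows K (L a) k2 k3⟩
      have := k2 w hw
      omega
    have heq : LinearMap.range L = Ker m K := by
      refine Submodule.eq_of_le_of_finrank_le hle ?_
      rw [LinearMap.finrank_range_of_inj hL, Module.finrank_fintype_fun_eq_card]
      exact hr
    intro v hv w hw
    rw [← heq] at hv
    obtain ⟨a, rfl⟩ := hv
    exact (hL2 a).2.1 w hw

end Pool.Agent.N97.KT.GEN
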